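import Mathlib

/-!
# MP_db54ba57_co : saturation after inserting interior empty rows

Patterns and matrices are 0-1 matrices (Bool valued, rows and columns indexed from 0).
We disprove the statement asked in Q1, through its part on a fixed number m₀ of rows:
for EVERY m₀ ≥ 3 there is a 2 × 5 pattern P (in fact always the same one) and a pattern P'
obtained from P by inserting m₀ / 2 interior empty rows (so P' has only m₀ / 2 + 2 ≤ m₀ rows)
such that sat(m₀, n, P) is bounded while sat(m₀, n, P') ≥ n for every n.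
-/

namespace Pool.Agent.Results.MP_db54ba57_co.FixedHeight

open Finset

/-- 0-1 matrices with `m` rows and `n` columns. -/
abbrev Mat (m n : ℕ) := Fin m → Fin n → Bool

/-- `M` contains the pattern `P`. -/
def Contains {m n k l : ℕ} (M : Mat m n) (P : Mat k l) : Prop :=
  ∃ (f : Fin k → Fin m) (g : Fin l → Fin n), StrictMono f ∧ StrictMono g ∧
    ∀ i j, P i j = true → M (f i) (g j) = true

/-- The matrix obtained from `M` by changing the entry `(i, j)` to 1. -/
def put {m n : ℕ} (M : Mat m n) (i : Fin m) (j : Fin n) : Mat m n :=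
  fun a b => if a = i ∧ b = j then true else M a b

/-- `M` is `P`-saturated: it avoids `P` but changing any single 0-entry to 1 creates `P`. -/
def Saturated {m n k l : ℕ} (M : Mat m n) (P : Mat k l) : Prop :=
  ¬ Contains M P ∧ ∀ i j, M i j = false → Contains (put M i j) P

/-- The number of 1-entries. -/
def weight {m n : ℕ} (M : Mat m n) : ℕ :=
  ((univ : Finset (Fin m × Fin n)).filter fun p => M p.1 p.2 = true).card

/-- The minimum weight of an `m × n` `P`-saturated matrix. -/
noncomputable def sat {k l : ℕ} (m n : ℕ) (P : Mat k l) : ℕ :=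
  sInf {w | ∃ M : Mat m n, Saturated M P ∧ weight M = w}

/-- `P'` is obtained from `P` by inserting interior empty rows and columns: `f` and `g` give
the positions of the old rows and columns, all 1-entries of `P'` are old ones, and no new row
(column) lies outside the old ones. -/
def Inserted {k l k' l' : ℕ} (P : Mat k l) (P' : Mat k' l') : Prop :=
  ∃ (f : Fin k → Fin k') (g : Fin l → Fin l'), StrictMono f ∧ StrictMono g ∧
    (∀ i j, P' (f i) (g j) = P i j) ∧
    (∀ a b, P' a b = true → (∃ i, f i = a) ∧ ∃ j, g j = b) ∧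
    (∀ a, ∃ i i', f i ≤ a ∧ a ≤ f i') ∧ (∀ b, ∃ j j', g j ≤ b ∧ b ≤ g j')

lemma weight_put {m n : ℕ} (M : Mat m n) (i : Fin m) (j : Fin n) (h : M i j = false) :
    weight M < weight (put M i j) := by
  unfold weight
  apply Finset.card_lt_card
  rw [Finset.ssubset_iff_of_subset]
  · refine ⟨(i, j), ?_, ?_⟩
    · simp [put]
    · simp [h]
  · intro p hp
    simp only [mem_filter, mem_univ, true_and] at hp ⊢
    unfold put
    split_ifs
    · rfl
    · exact hp

lemma exists_saturated {m n k l : ℕ} (P : Mat k l) (M₀ : Mat m n) (h₀ : ¬ Contains M₀ P) :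
    ∃ M : Mat m n, Saturated M P ∧ ∀ i j, M₀ i j = true → M i j = true := by
  classical
  let S : Finset (Mat m n) :=
    univ.filter fun M => ¬ Contains M P ∧ ∀ i j, M₀ i j = true → M i j = true
  have hS : S.Nonempty := ⟨M₀, by simp only [S, mem_filter, mem_univ, true_and]; exact ⟨h₀, fun _ _ h => h⟩⟩
  obtain ⟨M, hM, hmax⟩ := Finset.exists_max_image S weight hS
  simp only [S, mem_filter, mem_univ, true_and] at hM hmax
  refine ⟨M, ⟨hM.1, ?_⟩, hM.2⟩
  intro i j hij
  by_contra hc
  have := hmax (put M i j) ⟨hc, ?_⟩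
  · exact absurd (weight_put M i j hij) (not_lt.mpr this)
  · intro a b hab
    unfold put
    split_ifs
    · rfl
    · exact hM.2 a b hab

lemma zero_avoids {m n k l : ℕ} (P : Mat k l) (hP : ∃ i j, P i j = true) :
    ¬ Contains (fun _ _ => false : Mat m n) P := by
  rintro ⟨f, g, _, _, h⟩
  obtain ⟨i, j, hij⟩ := hP
  have := h i j hij
  simp at this

/-- Saturated matrices exist for every pattern with a 1-entry, so `sat` is a true minimum. -/
lemma sat_nonempty {k l : ℕ} (m n : ℕ) (P : Mat k l) (hP : ∃ i j, P i j = true) :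
    {w | ∃ M : Mat m n, Saturated M P ∧ weight M = w}.Nonempty := by
  obtain ⟨M, hM, _⟩ := exists_saturated P (fun _ _ => false : Mat m n) (zero_avoids P hP)
  exact ⟨_, M, hM, rfl⟩

/-! ### The pattern -/

/-- The pattern with rows `10011` and `01101`. -/
def P₀ : Mat 2 5 := ![![true, false, false, true, true], ![false, true, true, false, true]]

/-- `P₀` with `s` empty rows inserted between its two rows. -/
def P₁ (s : ℕ) : Mat (s + 2) 5 :=
  fun a b => if a.val = 0 then P₀ 0 b else if a.val = s + 1 then P₀ 1 b else false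

lemma inserted (s : ℕ) : Inserted P₀ (P₁ s) := by
  refine ⟨![⟨0, by omega⟩, ⟨s + 1, by omega⟩], id, ?_, strictMono_id, ?_, ?_, ?_, ?_⟩
  · intro a b hab
    fin_cases a <;> fin_cases b <;> simp_all [Fin.lt_def]
  · intro i j
    fin_cases i <;> simp [P₁]
  · intro a b hab
    refine ⟨?_, ⟨b, rfl⟩⟩
    unfold P₁ at hab
    split_ifs at hab with h1 h2
    · exact ⟨0, by ext; simp [h1]⟩
    · exact ⟨1, by ext; simp [h2]⟩
  · intro a
    refine ⟨0, 1, ?_, ?_⟩
    · simp [Fin.le_def]
    · simp only [Matrix.cons_val_one, Matrix.cons_val_fin_one, Fin.le_def]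
      have := a.isLt
      omega
  · intro b
    exact ⟨b, b, le_refl _, le_refl _⟩

/-! ### Upper bound -/

/-- The witness. -/
def W (m n : ℕ) : Mat m n := fun i j =>
  if i.val = 0 then decide (j.val = 0 ∨ j.val + 3 = n ∨ j.val + 2 = n)
  else if i.val + 1 = m then decide (j.val = 1 ∨ j.val = 2 ∨ j.val + 3 = n ∨ j.val + 1 = n)
  else decide (j.val = 2 ∨ j.val + 2 = n ∨ j.val + 1 = n)

lemma W_avoids (m n : ℕ) (hm : 3 ≤ m) (hn : 6 ≤ n) : ¬ Contains (W m n) P₀ := by
  rintro ⟨f, g, hf, hg, h⟩
  have hf01 : (f 0).val < (f 1).val := hf (by decide)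
  have hg01 : (g 0).val < (g 1).val := hg (by decide)
  have hg12 : (g 1).val < (g 2).val := hg (by decide)
  have hg23 : (g 2).val < (g 3).val := hg (by decide)
  have hg34 : (g 3).val < (g 4).val := hg (by decide)
  have h00 := h 0 0 rfl
  have h03 := h 0 3 rfl
  have h04 := h 0 4 rfl
  have h11 := h 1 1 rfl
  have h12 := h 1 2 rfl
  have h14 := h 1 4 rfl
  have l1 := (f 1).isLt
  have e1 := (g 4).isLt
  unfold W at h00 h03 h04 h11 h12 h14
  have hf0 : (f 0).val + 1 ≠ m := by omega
  have hf1 : (f 1).val ≠ 0 := by omega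
  simp only [hf0, hf1, if_false] at h00 h03 h04 h11 h12 h14
  split_ifs at h00 h03 h04 h11 h12 h14 <;> simp only [decide_eq_true_eq] at h00 h03 h04 h11 h12 h14 <;> omega

lemma W_stretch (m n : ℕ) (hm : 3 ≤ m) (hn : 6 ≤ n) (i : Fin m) (j : Fin n)
    (hj : 3 ≤ j.val) (hj' : j.val + 3 < n) : Contains (put (W m n) i j) P₀ := by
  have hi := i.isLt
  by_cases h0 : i.val = 0
  · -- row 0 : rows 0 and m-1
    refine ⟨![⟨0, by omega⟩, ⟨m - 1, by omega⟩],
      ![⟨0, by omega⟩, ⟨1, by omega⟩, ⟨2, by omega⟩, j, ⟨n - 3, by omega⟩], ?_, ?_, ?_⟩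
    · intro a b hab
      fin_cases a <;> fin_cases b <;> simp_all [Fin.lt_def] <;> omega
    · rw [Fin.strictMono_iff_lt_succ]
      intro a
      fin_cases a <;> simp [Fin.lt_def] <;> omega
    · have hi0 : i = ⟨0, by omega⟩ := Fin.ext h0
      have e1 : m - 1 ≠ 0 := by omega
      have e2 : m - 1 + 1 = m := by omega
      have e3 : n - 3 + 3 = n := by omega
      intro a b hab
      fin_cases a <;> fin_cases b <;> simp_all [put, W, P₀]
  · by_cases h1 : i.val + 1 = m
    · refine ⟨![⟨1, by omega⟩, i],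
        ![⟨2, by omega⟩, j, ⟨n - 3, by omega⟩, ⟨n - 2, by omega⟩, ⟨n - 1, by omega⟩], ?_, ?_, ?_⟩
      · intro a b hab
        fin_cases a <;> fin_cases b <;> simp_all [Fin.lt_def] <;> omega
      · rw [Fin.strictMono_iff_lt_succ]
        intro a
        fin_cases a <;> simp [Fin.lt_def] <;> omega
      · have e2 : (1 : ℕ) + 1 ≠ m := by omega
        have e3 : n - 3 + 3 = n := by omega
        have e4 : n - 2 + 2 = n := by omega
        have e5 : n - 1 + 1 = n := by omega
        intro a b hab
        fin_cases a <;> fin_cases b <;> simp_all [put, W, P₀]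
    · refine ⟨![⟨0, by omega⟩, i],
        ![⟨0, by omega⟩, ⟨2, by omega⟩, j, ⟨n - 3, by omega⟩, ⟨n - 2, by omega⟩], ?_, ?_, ?_⟩
      · intro a b hab
        fin_cases a <;> fin_cases b <;> simp_all [Fin.lt_def] <;> omega
      · rw [Fin.strictMono_iff_lt_succ]
        intro a
        fin_cases a <;> simp [Fin.lt_def] <;> omega
      · have e3 : n - 3 + 3 = n := by omega
        have e4 : n - 2 + 2 = n := by omega
        intro a b hab
        fin_cases a <;> fin_cases b <;> simp_all [put, W, P₀]

lemma contains_mono {m n k l : ℕ} {M N : Mat m n} {P : Mat k l}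
    (h : ∀ i j, M i j = true → N i j = true) (hM : Contains M P) : Contains N P := by
  obtain ⟨f, g, hf, hg, hP⟩ := hM
  exact ⟨f, g, hf, hg, fun i j hij => h _ _ (hP i j hij)⟩

lemma weight_le (m n : ℕ) (M : Mat m n) (s : Finset (Fin n))
    (h : ∀ i j, M i j = true → j ∈ s) : weight M ≤ m * s.card := by
  unfold weight
  calc _ ≤ ((univ : Finset (Fin m)) ×ˢ s).card := by
        apply Finset.card_le_card
        intro p hp
        simp only [mem_filter, mem_univ, true_and] at hp
        simp only [mem_product, mem_univ, true_and]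
        exact h _ _ hp
    _ = _ := by simp

lemma sat_upper (m n : ℕ) (hm : 3 ≤ m) : sat m n P₀ ≤ 6 * m := by
  by_cases hn : 6 ≤ n
  · obtain ⟨M, hM, hWM⟩ := exists_saturated P₀ (W m n) (W_avoids m n hm hn)
    refine le_trans (Nat.sInf_le ⟨M, hM, rfl⟩) ?_
    let s : Finset (Fin n) := univ.filter fun j => j.val < 3 ∨ n ≤ j.val + 3
    have hs : s.card ≤ 6 := by
      have : s.card = (s.map Fin.valEmbedding).card := by simp
      rw [this]
      calc _ ≤ (range 3 ∪ Ico (n - 3) n).card := by
            apply Finset.card_le_card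
            intro x hx
            simp only [s, mem_map, mem_filter, mem_univ, true_and, Fin.valEmbedding_apply] at hx
            obtain ⟨j, hj, rfl⟩ := hx
            have := j.isLt
            simp only [mem_union, mem_range, mem_Ico]
            omega
        _ ≤ (range 3).card + (Ico (n - 3) n).card := Finset.card_union_le _ _
        _ = 3 + (n - (n - 3)) := by simp
        _ ≤ 6 := by omega
    have := weight_le m n M s ?_
    · calc weight M ≤ m * s.card := this
        _ ≤ m * 6 := Nat.mul_le_mul_left _ hs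
        _ = 6 * m := by ring
    · intro i j hij
      by_contra hj
      simp only [s, mem_filter, mem_univ, true_and, not_or, not_lt, not_le] at hj
      refine hM.1 (contains_mono ?_ (W_stretch m n hm hn i j hj.1 hj.2))
      intro a b hab
      unfold put at hab
      split_ifs at hab with hc
      · rw [hc.1, hc.2]; exact hij
      · exact hWM a b hab
  · obtain ⟨M, hM, _⟩ := exists_saturated P₀ (fun _ _ => false : Mat m n)
      (zero_avoids P₀ ⟨0, 0, rfl⟩)
    refine le_trans (Nat.sInf_le ⟨M, hM, rfl⟩) ?_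
    have := weight_le m n M univ (fun _ _ _ => mem_univ _)
    simp only [card_univ, Fintype.card_fin] at this
    calc weight M ≤ m * n := this
      _ ≤ m * 6 := Nat.mul_le_mul_left _ (by omega)
      _ = 6 * m := by ring

/-! ### Lower bound -/

lemma strictMono_gap {k m : ℕ} (f : Fin (k + 1) → Fin m) (hf : StrictMono f) :
    ∀ i : Fin (k + 1), (f 0).val + i.val ≤ (f i).val := by
  intro i
  induction i using Fin.induction with
  | zero => simp
  | succ i ih =>
    have : (f i.castSucc).val < (f i.succ).val := hf (Fin.castSucc_lt_succ)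
    simp only [Fin.val_succ]
    simp only [Fin.val_castSucc] at ih
    omega

lemma sat_lower (m n s : ℕ) (hs : s < m) (hm : m ≤ 2 * s + 1) : n ≤ sat m n (P₁ s) := by
  refine le_csInf (sat_nonempty m n (P₁ s) ⟨0, 0, by simp [P₁, P₀]⟩) ?_
  rintro w ⟨M, hM, rfl⟩
  have key : ∀ j, M ⟨s, hs⟩ j = true := by
    intro j
    by_contra hj
    have hj' : M ⟨s, hs⟩ j = false := by simpa using hj
    obtain ⟨f, g, hf, hg, h⟩ := hM.2 _ _ hj'
    apply hM.1
    refine ⟨f, g, hf, hg, ?_⟩
    intro a b hab
    have h2 := h a b hab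
    have gap := strictMono_gap f hf (Fin.last (s + 1))
    have l1 := (f (Fin.last (s + 1))).isLt
    simp only [Fin.val_last] at gap
    have hne : (f a).val ≠ s := by
      unfold P₁ at hab
      split_ifs at hab with h1 h3
      · have : a = 0 := Fin.ext h1
        rw [this]
        omega
      · have : a = Fin.last (s + 1) := Fin.ext h3
        rw [this]
        omega
    unfold put at h2
    split_ifs at h2 with hc
    · exact absurd (by rw [hc.1]) hne
    · exact h2
  unfold weight
  calc n = (univ : Finset (Fin n)).card := by simp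
    _ = ((univ : Finset (Fin n)).image fun j => ((⟨s, hs⟩ : Fin m), j)).card := by
        rw [Finset.card_image_of_injective]
        intro a b hab
        simpa using hab
    _ ≤ _ := by
        apply Finset.card_le_card
        intro p hp
        simp only [mem_image, mem_univ, true_and] at hp
        obtain ⟨j, rfl⟩ := hp
        simp [key j]

/-- **Negative answer to Q1.**  For every fixed number `m₀ ≥ 3` of rows there are a pattern `P`
(the 2 × 5 pattern with rows 10011 and 01101) and a pattern `P'` with `m₀ / 2 + 2 ≤ m₀` rows,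
obtained from `P` by inserting interior empty rows, such that `sat(m₀, n, P) ≤ 6 m₀` for all `n`
but `sat(m₀, n, P') ≥ n` for all `n`; so `sat(m₀, n, P') = O(sat(m₀, n, P))` fails.  In
particular the statement of Q1 (for all `P`, `P'`: `sat(n, P') = O(sat(n, P))` and, for all
`m₀`, `sat(m₀, n, P') = O(sat(m₀, n, P))`) is false. -/
theorem result :
    (∀ m₀ : ℕ, 3 ≤ m₀ → ∃ (k' : ℕ) (P : Mat 2 5) (P' : Mat k' 5),
      k' = m₀ / 2 + 2 ∧ k' ≤ m₀ ∧
      P = ![![true, false, false, true, true], ![false, true, true, false, true]] ∧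
      Inserted P P' ∧
      (∀ n, sat m₀ n P ≤ 6 * m₀) ∧
      (∀ n, n ≤ sat m₀ n P') ∧
      ¬ ((fun n : ℕ => (sat m₀ n P' : ℝ)) =O[Filter.atTop] fun n : ℕ => (sat m₀ n P : ℝ))) ∧
    ¬ (∀ (k l : ℕ) (P : Mat k l), (∃ i j, P i j = true) →
        ∀ (k' l' : ℕ) (P' : Mat k' l'), Inserted P P' →
          ((fun n : ℕ => (sat n n P' : ℝ)) =O[Filter.atTop] fun n : ℕ => (sat n n P : ℝ)) ∧
          ∀ m₀ : ℕ, 1 ≤ m₀ →
            (fun n : ℕ => (sat m₀ n P' : ℝ)) =O[Filter.atTop] fun n : ℕ => (sat m₀ n P : ℝ)) := by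
  have main : ∀ m₀ : ℕ, 3 ≤ m₀ →
      ¬ ((fun n : ℕ => (sat m₀ n (P₁ (m₀ / 2)) : ℝ)) =O[Filter.atTop]
        fun n : ℕ => (sat m₀ n P₀ : ℝ)) := by
    intro m hm hO
    obtain ⟨C, hC⟩ := hO.bound
    obtain ⟨N, hN⟩ := Filter.eventually_atTop.mp hC
    obtain ⟨n, hn⟩ := exists_nat_gt (|C| * (6 * m) + N)
    have h1 : (N : ℝ) ≤ n := by
      have : 0 ≤ |C| * (6 * m) := by positivity
      linarith
    have h2 := hN n (by exact_mod_cast h1)
    have h3 : (sat m n P₀ : ℝ) ≤ 6 * m := by exact_mod_cast sat_upper m n hm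
    have h4 : (n : ℝ) ≤ sat m n (P₁ (m / 2)) := by
      exact_mod_cast sat_lower m n (m / 2) (by omega) (by omega)
    rw [Real.norm_of_nonneg (by positivity), Real.norm_of_nonneg (by positivity)] at h2
    have h5 : C * (sat m n P₀ : ℝ) ≤ |C| * (6 * m) := by
      calc C * (sat m n P₀ : ℝ) ≤ |C| * (sat m n P₀ : ℝ) :=
            mul_le_mul_of_nonneg_right (le_abs_self C) (by positivity)
        _ ≤ _ := mul_le_mul_of_nonneg_left h3 (abs_nonneg C)
    have h6 : (0 : ℝ) ≤ N := by positivity
    linarith
  refine ⟨?_, ?_⟩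
  · intro m hm
    refine ⟨m / 2 + 2, P₀, P₁ (m / 2), rfl, by omega, rfl, inserted _, fun n => sat_upper m n hm,
      fun n => sat_lower m n (m / 2) (by omega) (by omega), main m hm⟩
  · intro hall
    exact main 3 le_rfl ((hall 2 5 P₀ ⟨0, 0, rfl⟩ _ 5 (P₁ (3 / 2)) (inserted _)).2 3 (by norm_num))

end Pool.Agent.Results.MP_db54ba57_co.FixedHeight
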